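import Pool.Agent.H82.PRP.Stmts

/-!
# Module EXT: derivations with prescribed values on the generators
-/

set_option autoImplicit false

namespace Pool.Agent.H82.PRP.EXT

open Pool.Agent.H82.PRP

/-- The group of the pairs of a function on `R` and an element of `R`. -/
@[ext]
structure W (p : ℕ) (R : Type) : Type where
  a : R → ZMod p
  r : R

namespace W

variable {p : ℕ} {R : Type} [Group R]

instance : Mul (W p R) := ⟨fun v w => ⟨fun x => v.a x + w.a (x * v.r), v.r * w.r⟩⟩
instance : One (W p R) := ⟨⟨0, 1⟩⟩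
instance : Inv (W p R) := ⟨fun v => ⟨fun x => -v.a (x * v.r⁻¹), v.r⁻¹⟩⟩

theorem mul_a (v w : W p R) (x : R) : (v * w).a x = v.a x + w.a (x * v.r) := rfl
theorem mul_r (v w : W p R) : (v * w).r = v.r * w.r := rfl
theorem one_a (x : R) : (1 : W p R).a x = 0 := rfl
theorem one_r : (1 : W p R).r = 1 := rfl
theorem inv_a (v : W p R) (x : R) : (v⁻¹).a x = -v.a (x * v.r⁻¹) := rfl
theorem inv_r (v : W p R) : (v⁻¹).r = v.r⁻¹ := rfl

instance : Group (W p R) where
  mul_assoc u v w := by
    ext x
    · simp only [mul_a, mul_r, mul_assoc, add_assoc]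
    · simp only [mul_r, mul_assoc]
  one_mul u := by
    ext x
    · simp only [mul_a, one_a, one_r, mul_one, zero_add]
    · simp only [mul_r, one_r, one_mul]
  mul_one u := by
    ext x
    · simp only [mul_a, one_a, add_zero]
    · simp only [mul_r, one_r, mul_one]
  inv_mul_cancel u := by
    ext x
    · simp only [mul_a, inv_a, inv_r, one_a, neg_add_cancel]
    · simp only [mul_r, inv_r, one_r, inv_mul_cancel]

/-- The second projection. -/
def proj (p : ℕ) (R : Type) [Group R] : W p R →* R where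
  toFun := W.r
  map_one' := rfl
  map_mul' _ _ := rfl

/-- The underlying set. -/
def equiv (p : ℕ) (R : Type) : W p R ≃ (R → ZMod p) × R where
  toFun w := (w.a, w.r)
  invFun x := ⟨x.1, x.2⟩
  left_inv _ := rfl
  right_inv _ := rfl

end W

end Pool.Agent.H82.PRP.EXT

namespace Pool.Agent.H82.PRP

open Filter Topology

/-- EXT: derivations with prescribed values on the generators. -/
theorem ext_thm : EXTStmt := by
  intro p hp F _ _ _ _ _ gen D h φ ⟨n, hφ⟩
  have := h.normal n
  obtain ⟨k, hk⟩ := h.index n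
  have hp1 : p ≠ 0 := hp.out.ne_zero
  have : NeZero p := ⟨hp1⟩
  have hcard : Nat.card (F ⧸ D n) = p ^ k := hk
  have : Finite (F ⧸ D n) := Nat.finite_of_card_ne_zero (by
    rw [hcard]
    exact pow_ne_zero k hp1)
  have : Finite (EXT.W p (F ⧸ D n)) := Finite.of_equiv _ (EXT.W.equiv p (F ⧸ D n)).symm
  have hPG : IsPGroup p (EXT.W p (F ⧸ D n)) := by
    refine IsPGroup.of_card (n := Nat.card (F ⧸ D n) + k) ?_
    rw [Nat.card_congr (EXT.W.equiv p (F ⧸ D n)), Nat.card_prod, Nat.card_fun, Nat.card_zmod,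
      pow_add, ← hcard]
  -- the functions on the quotient
  have hlift : ∀ i, ∀ x y : F, (QuotientGroup.leftRel (D n)) x y → φ i x = φ i y := by
    intro i x y hxy
    rw [QuotientGroup.leftRel_apply] at hxy
    have := hφ i x _ hxy
    rw [← this]
    congr 1
    group
  let φb : Fin 3 → (F ⧸ D n) → ZMod p := fun i => Quotient.lift (φ i) (hlift i)
  have hφb : ∀ i (x : F), φb i (QuotientGroup.mk x) = φ i x := fun _ _ => rfl
  obtain ⟨Φ, ⟨m, hm⟩, hgen⟩ := h.ext (EXT.W p (F ⧸ D n)) hPG
    (fun i => ⟨φb i, QuotientGroup.mk (gen i)⟩)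
  -- the second component
  have hsec : ∀ w : F, (Φ w).r = QuotientGroup.mk w := by
    have h1 : (MonoidHom.eqLocus ((EXT.W.proj p (F ⧸ D n)).comp Φ) (QuotientGroup.mk' (D n))) =
        ⊤ := by
      rw [eq_top_iff, ← h.dense (max m n)]
      refine sup_le ?_ ?_
      · rw [Subgroup.closure_le]
        rintro _ ⟨i, rfl⟩
        show (Φ (gen i)).r = QuotientGroup.mk (gen i)
        rw [hgen i]
      · intro d hd
        have hd1 : Φ d = 1 := hm (h.anti (le_max_left m n) hd)
        have hd2 : d ∈ D n := h.anti (le_max_right m n) hd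
        show (Φ d).r = QuotientGroup.mk d
        rw [hd1]
        exact ((QuotientGroup.eq_one_iff d).mpr hd2).symm
    intro w
    have h2 : w ∈ (MonoidHom.eqLocus ((EXT.W.proj p (F ⧸ D n)).comp Φ)
        (QuotientGroup.mk' (D n))) := by
      rw [h1]
      trivial
    exact h2
  refine ⟨fun w x => (Φ w).a (QuotientGroup.mk x), ⟨?_, max m n, ?_⟩, ?_⟩
  · intro v w x
    show (Φ (v * w)).a (QuotientGroup.mk x) =
      (Φ v).a (QuotientGroup.mk x) + (Φ w).a (QuotientGroup.mk (x * v))
    rw [map_mul, EXT.W.mul_a, hsec v]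
    rfl
  · intro w x d hd
    have hd1 : Φ d = 1 := hm (h.anti (le_max_left m n) hd)
    have hd2 : d ∈ D n := h.anti (le_max_right m n) hd
    constructor
    · show (Φ (w * d)).a (QuotientGroup.mk x) = (Φ w).a (QuotientGroup.mk x)
      rw [map_mul, hd1, mul_one]
    · show (Φ w).a (QuotientGroup.mk (x * d)) = (Φ w).a (QuotientGroup.mk x)
      rw [QuotientGroup.mk_mul_of_mem x hd2]
  · intro i x
    show (Φ (gen i)).a (QuotientGroup.mk x) = φ i x
    rw [hgen i]
    exact hφb i x

end Pool.Agent.H82.PRP
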