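import Pool.Agent.H82.PRP.Stmts

/-!
# Module PBW: the counting bound for `F_p[P]/I^n`
-/

set_option autoImplicit false

namespace Pool.Agent.H82.PRP.PBW

open Pool.Agent.H82.PRP

section Span

variable {K A : Type} [Field K] [Ring A] [Algebra K A]

/-- A product of elements of spans is in the span of the products. -/
lemma ofFn_mem_span (q : ℕ) : ∀ (c : ℕ) (y : Fin c → A) (x : Fin c → A),
    (∀ a, y a ∈ Submodule.span K (Set.range fun i : Fin q => x a ^ (i : ℕ))) →
    (List.ofFn y).prod ∈ Submodule.span K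
      (Set.range fun i : Fin c → Fin q => (List.ofFn fun a => x a ^ (i a : ℕ)).prod) := by
  intro c
  induction c with
  | zero =>
    intro y x _
    rw [List.ofFn_zero, List.prod_nil]
    apply Submodule.subset_span
    exact ⟨fun a => a.elim0, by simp⟩
  | succ c ih =>
    intro y x hy
    rw [List.ofFn_succ, List.prod_cons]
    have h1 := hy 0
    have h2 := ih (fun a => y a.succ) (fun a => x a.succ) (fun a => hy a.succ)
    have h3 := Submodule.mul_mem_mul h1 h2
    rw [Submodule.span_mul_span] at h3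
    refine Submodule.span_mono ?_ h3
    rintro _ ⟨_, ⟨i, rfl⟩, _, ⟨j, rfl⟩, rfl⟩
    refine ⟨Fin.cons i j, ?_⟩
    show (List.ofFn fun a => x a ^ ((Fin.cons i j : Fin (c + 1) → Fin q) a : ℕ)).prod = _
    rw [List.ofFn_succ, List.prod_cons]
    simp only [Fin.cons_zero, Fin.cons_succ]

/-- Powers in terms of powers of `g - 1`. -/
lemma pow_mem_span (q e : ℕ) (he : e < q) (g : A) :
    g ^ e ∈ Submodule.span K (Set.range fun i : Fin q => (g - 1) ^ (i : ℕ)) := by
  have h1 : g ^ e = ∑ i ∈ Finset.range (e + 1), (g - 1) ^ i * ((e.choose i : ℕ) : A) := by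
    have h2 := (Commute.one_right (g - 1)).add_pow e
    rw [sub_add_cancel] at h2
    rw [h2]
    refine Finset.sum_congr rfl fun i _ => ?_
    rw [one_pow, mul_one]
  rw [h1]
  refine Submodule.sum_mem _ fun i hi => ?_
  have h3 : (g - 1) ^ i * ((e.choose i : ℕ) : A) = ((e.choose i : ℕ) : K) • (g - 1) ^ i := by
    rw [Algebra.smul_def, map_natCast, Nat.cast_comm]
  rw [h3]
  apply Submodule.smul_mem
  apply Submodule.subset_span
  have hi' : i < q := by
    have := Finset.mem_range.mp hi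
    omega
  exact ⟨⟨i, hi'⟩, rfl⟩

/-- Products of powers lie in powers of a subspace. -/
lemma ofFn_mem_pow (I : Submodule K A) (k : ℕ) : ∀ (c : ℕ) (x : Fin c → A), (∀ a, x a ∈ I ^ k) →
    ∀ i : Fin c → ℕ, (List.ofFn fun a => x a ^ i a).prod ∈ I ^ (k * ∑ a, i a) := by
  intro c
  induction c with
  | zero =>
    intro x _ i
    rw [List.ofFn_zero, List.prod_nil]
    simp only [Finset.univ_eq_empty, Finset.sum_empty, mul_zero, pow_zero]
    exact Submodule.one_le.mp le_rfl
  | succ c ih =>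
    intro x hx i
    rw [List.ofFn_succ, List.prod_cons, Fin.sum_univ_succ, mul_add, pow_add, pow_mul]
    exact Submodule.mul_mem_mul (Submodule.pow_mem_pow _ (hx 0) _)
      (ih (fun a => x a.succ) (fun a => hx a.succ) (fun a => i a.succ))

end Span

/-- A spanning family with weights. -/
def Cl (p : ℕ) (P : Type) [Group P] (n : ℕ) (t : ℝ) (S : Subgroup P) (B : ℝ) : Prop :=
  ∃ (ι : Type) (_ : Fintype ι) (m : ι → MonoidAlgebra (ZMod p) P) (w : ι → ℕ),
    (∀ j, m j ∈ (augI p P) ^ (w j)) ∧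
    (∀ g ∈ S, MonoidAlgebra.of (ZMod p) P g ∈
      Submodule.span (ZMod p) (Set.range m) ⊔ (augI p P) ^ n) ∧
    ∑ j, t ^ (w j) ≤ B

lemma step {p : ℕ} [Fact p.Prime] {P : Type} [Group P] [Finite P] (hA : AUGBStmt)
    (hB : BASISPStmt) (hP : IsPGroup p P) {n k c : ℕ} (hn : 1 ≤ n) (hk : 1 ≤ k) {t : ℝ}
    (ht0 : 0 < t) (ht1 : t < 1) {S S' : Subgroup P} (hS : S' ≤ S) (hN : S'.Normal)
    (hc : S'.relIndex S ≤ p ^ c)
    (hI : ∀ g ∈ S, MonoidAlgebra.of (ZMod p) P g - 1 ∈ (augI p P) ^ k) {B : ℝ}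
    (h : Cl p P n t S' B) : Cl p P n t S (((1 - t ^ k)⁻¹) ^ c * B) := by
  obtain ⟨ι, _, m, w, hm, hg, hs⟩ := h
  obtain ⟨b, hb, hrep⟩ := hB p P hP S S' hS hN c hc
  have hideal := (hA p P).2.2.1 n hn
  set x : Fin c → MonoidAlgebra (ZMod p) P := fun a => MonoidAlgebra.of (ZMod p) P (b a) - 1
    with hx
  refine ⟨(Fin c → Fin p) × ι, inferInstance,
    fun z => (List.ofFn fun a => x a ^ (z.1 a : ℕ)).prod * m z.2,
    fun z => k * ∑ a, (z.1 a : ℕ) + w z.2, ?_, ?_, ?_⟩
  · intro z
    rw [pow_add]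
    exact Submodule.mul_mem_mul (ofFn_mem_pow (augI p P) k c x (fun a => hI _ (hb a))
      (fun a => (z.1 a : ℕ))) (hm z.2)
  · intro g hgS
    obtain ⟨e, he, h', hh', rfl⟩ := hrep g hgS
    have e1 : MonoidAlgebra.of (ZMod p) P ((List.ofFn fun i => b i ^ e i).prod * h') =
        (List.ofFn fun i => (MonoidAlgebra.of (ZMod p) P (b i)) ^ e i).prod *
          MonoidAlgebra.of (ZMod p) P h' := by
      rw [map_mul, map_list_prod, List.map_ofFn]
      congr 3
      funext i
      simp only [Function.comp_apply, map_pow]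
    rw [e1]
    have h1 := ofFn_mem_span (K := ZMod p) p c
      (fun i => (MonoidAlgebra.of (ZMod p) P (b i)) ^ e i) x
      (fun a => pow_mem_span (K := ZMod p) p (e a) (he a) (MonoidAlgebra.of (ZMod p) P (b a)))
    have h2 := hg h' hh'
    obtain ⟨u, hu, v, hv, huv⟩ := Submodule.mem_sup.mp h2
    rw [← huv, mul_add]
    refine Submodule.add_mem_sup ?_ ?_
    · have h3 := Submodule.mul_mem_mul h1 hu
      rw [Submodule.span_mul_span] at h3
      refine Submodule.span_mono ?_ h3
      rintro _ ⟨_, ⟨i, rfl⟩, _, ⟨j, rfl⟩, rfl⟩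
      exact ⟨(i, j), rfl⟩
    · exact (hideal _ v hv).1
  · have h1 : ∑ z : (Fin c → Fin p) × ι, t ^ (k * ∑ a, (z.1 a : ℕ) + w z.2) =
        (∑ i : Fin p, (t ^ k) ^ (i : ℕ)) ^ c * ∑ j, t ^ (w j) := by
      rw [Fintype.sum_pow, Finset.sum_mul_sum, Fintype.sum_prod_type]
      refine Finset.sum_congr rfl fun i _ => Finset.sum_congr rfl fun j _ => ?_
      rw [pow_add, pow_mul, Finset.prod_pow_eq_pow_sum]
    rw [h1]
    have htk0 : 0 < t ^ k := pow_pos ht0 k
    have htk1 : t ^ k < 1 := pow_lt_one₀ ht0.le ht1 (by omega)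
    have h2 : ∑ i : Fin p, (t ^ k) ^ (i : ℕ) ≤ (1 - t ^ k)⁻¹ := by
      rw [Fin.sum_univ_eq_sum_range (fun i => (t ^ k) ^ i) p]
      have h3 := (hasSum_geometric_of_lt_one htk0.le htk1)
      exact sum_le_hasSum (Finset.range p) (fun i _ => pow_nonneg htk0.le i) h3
    have h0 : 0 ≤ ∑ i : Fin p, (t ^ k) ^ (i : ℕ) :=
      Finset.sum_nonneg fun i _ => pow_nonneg htk0.le _
    have h4 : 0 ≤ ∑ j, t ^ (w j) := Finset.sum_nonneg fun j _ => pow_nonneg ht0.le _
    refine mul_le_mul (pow_le_pow_left₀ h0 h2 c) hs h4 ?_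
    have : 0 < 1 - t ^ k := by linarith
    positivity

end Pool.Agent.H82.PRP.PBW

namespace Pool.Agent.H82.PRP

/-- PBW: the counting bound for `dim F_p[P]/I^n`. -/
theorem pbw_thm (hAUGB : AUGBStmt) (hBASISP : BASISPStmt) : PBWStmt := by
  intro p _ P _ _ hP E hN hanti hE1 hEI c hc n hn t ht0 ht1
  -- the induction
  have hind : ∀ d k : ℕ, k + d = n → 1 ≤ k →
      PBW.Cl p P n t (E k) (∏ l ∈ Finset.Ico k n, ((1 - t ^ l)⁻¹) ^ (c l)) := by
    intro d
    induction d with
    | zero =>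
      intro k hk hk1
      have hkn : k = n := by omega
      subst hkn
      refine ⟨Unit, inferInstance, fun _ => 1, fun _ => 0, ?_, ?_, ?_⟩
      · intro _
        rw [pow_zero]
        exact Submodule.one_le.mp le_rfl
      · intro g hg
        have h1 := hEI k hk1 g hg
        have h2 : MonoidAlgebra.of (ZMod p) P g = 1 + (MonoidAlgebra.of (ZMod p) P g - 1) := by
          abel
        rw [h2]
        exact Submodule.add_mem_sup (Submodule.subset_span ⟨(), rfl⟩) h1
      · simp
    | succ d ih =>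
      intro k hk hk1
      have h1 := ih (k + 1) (by omega) (by omega)
      have h2 := PBW.step hAUGB hBASISP hP hn hk1 ht0 ht1 (hanti (Nat.le_succ k)) (hN (k + 1))
        (hc k hk1) (hEI k hk1) h1
      rw [Finset.prod_eq_prod_Ico_succ_bot (by omega : k < n)]
      exact h2
  obtain ⟨ι, _, m, w, hm, hg, hs⟩ := hind (n - 1) 1 (by omega) le_rfl
  -- everything is spanned
  have hspan : Submodule.span (ZMod p) (Set.range m) ⊔ (augI p P) ^ n = ⊤ := by
    rw [eq_top_iff]
    intro f _
    refine MonoidAlgebra.induction_on f ?_ ?_ ?_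
    · intro g
      apply hg
      rw [hE1]
      trivial
    · intro a b ha hb
      exact Submodule.add_mem _ ha hb
    · intro r a ha
      exact Submodule.smul_mem _ r ha
  have hle : ∀ j, n ≤ w j → (augI p P) ^ (w j) ≤ (augI p P) ^ n := by
    intro j hj
    have hmono : ∀ e, (augI p P) ^ (n + e) ≤ (augI p P) ^ n := by
      intro e
      induction e with
      | zero => exact le_rfl
      | succ e ihe =>
        exact le_trans ((hAUGB p P).2.2.2.1 (n + e) (by omega)) ihe
    have := hmono (w j - n)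
    rwa [Nat.add_sub_cancel' hj] at this
  classical
  let J := {j : ι // w j < n}
  have hspan2 : Submodule.span (ZMod p) (Set.range fun j : J =>
      (Submodule.Quotient.mk (m j.1) : MonoidAlgebra (ZMod p) P ⧸ (augI p P) ^ n)) = ⊤ := by
    rw [eq_top_iff]
    intro f _
    obtain ⟨f, rfl⟩ := Submodule.Quotient.mk_surjective _ f
    have hf : f ∈ Submodule.span (ZMod p) (Set.range m) ⊔ (augI p P) ^ n := by
      rw [hspan]
      trivial
    obtain ⟨u, hu, v, hv, rfl⟩ := Submodule.mem_sup.mp hf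
    have hv0 : (Submodule.Quotient.mk v : MonoidAlgebra (ZMod p) P ⧸ (augI p P) ^ n) = 0 :=
      (Submodule.Quotient.mk_eq_zero _).mpr hv
    rw [Submodule.Quotient.mk_add, hv0, add_zero]
    have hmap : Submodule.span (ZMod p) (Set.range m) ≤
        (Submodule.span (ZMod p) (Set.range fun j : J =>
          (Submodule.Quotient.mk (m j.1) : MonoidAlgebra (ZMod p) P ⧸ (augI p P) ^ n))).comap
          ((augI p P) ^ n).mkQ := by
      rw [Submodule.span_le]
      rintro _ ⟨j, rfl⟩
      show (Submodule.Quotient.mk (m j) : MonoidAlgebra (ZMod p) P ⧸ (augI p P) ^ n) ∈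
        Submodule.span (ZMod p) (Set.range fun j : J =>
          (Submodule.Quotient.mk (m j.1) : MonoidAlgebra (ZMod p) P ⧸ (augI p P) ^ n))
      by_cases hj : w j < n
      · exact Submodule.subset_span ⟨⟨j, hj⟩, rfl⟩
      · rw [(Submodule.Quotient.mk_eq_zero _).mpr (hle j (by omega) (hm j))]
        exact Submodule.zero_mem _
    exact hmap hu
  have hcard : Module.finrank (ZMod p) (MonoidAlgebra (ZMod p) P ⧸ (augI p P) ^ n) ≤
      Fintype.card J := by
    have h1 := finrank_range_le_card (R := ZMod p) (fun j : J =>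
      (Submodule.Quotient.mk (m j.1) : MonoidAlgebra (ZMod p) P ⧸ (augI p P) ^ n))
    rw [Set.finrank, hspan2, finrank_top] at h1
    exact h1
  have htn : 0 < t ^ n := pow_pos ht0 n
  have hJ : (Fintype.card J : ℝ) * t ^ n ≤ ∑ j, t ^ (w j) := by
    have h1 : (Fintype.card J : ℝ) * t ^ n = ∑ _j : J, t ^ n := by
      rw [Finset.sum_const, Finset.card_univ, nsmul_eq_mul]
    rw [h1]
    have h2 : ∑ _j : J, t ^ n ≤ ∑ j : J, t ^ (w j.1) :=
      Finset.sum_le_sum fun j _ => pow_le_pow_of_le_one ht0.le ht1.le j.2.le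
    refine h2.trans ?_
    have h3 : ∑ j : J, t ^ (w j.1) =
        ∑ j ∈ Finset.univ.map (⟨Subtype.val, Subtype.val_injective⟩ : J ↪ ι), t ^ (w j) := by
      rw [Finset.sum_map]
      rfl
    rw [h3]
    exact Finset.sum_le_sum_of_subset_of_nonneg (Finset.subset_univ _)
      (fun j _ _ => pow_nonneg ht0.le _)
  calc (Module.finrank (ZMod p) (MonoidAlgebra (ZMod p) P ⧸ (augI p P) ^ n) : ℝ)
      ≤ Fintype.card J := by exact_mod_cast hcard
    _ = (t⁻¹) ^ n * ((Fintype.card J : ℝ) * t ^ n) := by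
        rw [inv_pow]
        field_simp
    _ ≤ (t⁻¹) ^ n * ∏ k ∈ Finset.Ico 1 n, ((1 - t ^ k)⁻¹) ^ (c k) := by
        refine mul_le_mul_of_nonneg_left (hJ.trans hs) ?_
        positivity

end Pool.Agent.H82.PRP
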